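import Pool.Agent.Lib.MP_72b724_gt.Interfaces

/-!
# MP_72b724_gt, module ITMEAN: iterated means
-/

open scoped BigOperators

namespace Pool.Agent.Lib.MP_72b724_gt.H53

noncomputable section

/-- A mean. -/
structure Mean0 (α : Type) where
  m : Bdd α →ₗ[ℝ] ℝ
  one : m (Bdd.const 1) = 1
  le : ∀ (f : Bdd α) (C : ℝ), Bdd.Le f C → |m f| ≤ C

/-- The evaluation at a point. -/
def Mean0.pt {α : Type} (a : α) : Mean0 α where
  m := { toFun := fun f => f.1 a, map_add' := fun _ _ => rfl, map_smul' := fun _ _ => rfl }
  one := rfl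
  le _ _ h := h a

theorem Mean0.const {α : Type} (φ : Mean0 α) (c : ℝ) : φ.m (Bdd.const c) = c := by
  have h : (Bdd.const c : Bdd α) = c • Bdd.const 1 := by
    apply Subtype.ext
    funext x
    change c = c * 1
    rw [mul_one]
  rw [h, map_smul, φ.one, smul_eq_mul, mul_one]

/-- The iterated mean. -/
def Mean0.fub {α β γ : Type} (φ : Mean0 α) (ψ : Mean0 β) (c : α → β → γ) : Mean0 γ where
  m :=
    { toFun := fun f => φ.m ⟨fun a => ψ.m (Bdd.pull (c a) f), by
        obtain ⟨C, hC⟩ := f.2
        exact ⟨C, fun a => ψ.le _ _ fun b => hC _⟩⟩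
      map_add' := fun f g => by
        rw [← map_add]
        congr 1
        apply Subtype.ext
        funext a
        change ψ.m (Bdd.pull (c a) (f + g)) = ψ.m (Bdd.pull (c a) f) + ψ.m (Bdd.pull (c a) g)
        rw [map_add, map_add]
      map_smul' := fun r f => by
        rw [RingHom.id_apply, ← map_smul]
        congr 1
        apply Subtype.ext
        funext a
        change ψ.m (Bdd.pull (c a) (r • f)) = r • ψ.m (Bdd.pull (c a) f)
        rw [map_smul, map_smul] }
  one := by
    have h : (⟨fun a => ψ.m (Bdd.pull (c a) (Bdd.const 1)), by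
        exact ⟨1, fun a => ψ.le _ _ fun b => by
          change |(1 : ℝ)| ≤ 1
          simp⟩⟩ : Bdd α) = Bdd.const 1 := by
      apply Subtype.ext
      funext a
      exact ψ.one
    change φ.m _ = 1
    rw [h, φ.one]
  le f C h := φ.le _ _ fun a => ψ.le _ _ fun b => h _

theorem Mean0.fub_apply {α β γ : Type} (φ : Mean0 α) (ψ : Mean0 β) (c : α → β → γ) (f : Bdd γ)
    (g : Bdd α) (h : ∀ a, ψ.m (Bdd.pull (c a) f) = g.1 a) : (φ.fub ψ c).m f = φ.m g := by
  change φ.m _ = _
  congr 1
  apply Subtype.ext
  funext a
  exact h a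

theorem Mean0.fub_congr {α β γ δ : Type} (φ : Mean0 α) (ψ : Mean0 β) (ψ' : Mean0 δ)
    (c : α → β → γ) {γ' : Type} (c' : α → δ → γ') (f : Bdd γ) (f' : Bdd γ')
    (h : ∀ a, ψ.m (Bdd.pull (c a) f) = ψ'.m (Bdd.pull (c' a) f')) :
    (φ.fub ψ c).m f = (φ.fub ψ' c').m f' := by
  change φ.m _ = φ.m _
  congr 1
  apply Subtype.ext
  funext a
  exact h a

theorem pull_congr {α β : Type} {g g' : α → β} (f : Bdd β) (h : ∀ a, g a = g' a) :
    Bdd.pull g f = Bdd.pull g' f := by
  rw [funext h]

variable {π : Type} [AddCommGroup π]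

/-- An additive mean as a mean. -/
def toMean0 (M : AddMean π) : Mean0 π := ⟨M.m, M.one, M.le⟩

/-- The iterated mean on `Fin r → π`. -/
def itm (M : AddMean π) : ∀ r : ℕ, Mean0 (Fin r → π)
  | 0 => Mean0.pt Fin.elim0
  | (r + 1) => (toMean0 M).fub (itm M r) (fun a v => (Fin.cons a v : Fin (r + 1) → π))

theorem itm_succ (M : AddMean π) (r : ℕ) : itm M (r + 1) =
    (toMean0 M).fub (itm M r) (fun a v => (Fin.cons a v : Fin (r + 1) → π)) := rfl

theorem itm_add (M : AddMean π) : ∀ (r : ℕ) (v : Fin r → π) (f : Bdd (Fin r → π)),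
    (itm M r).m (Bdd.pull (fun u => v + u) f) = (itm M r).m f := by
  intro r
  induction r with
  | zero =>
    intro v f
    have h : ∀ u : Fin 0 → π, v + u = u := fun u => Subsingleton.elim _ _
    rw [pull_congr f h]
    rfl
  | succ r ih =>
    intro v f
    rw [itm_succ]
    -- the inner mean
    let g : Bdd π := ⟨fun a => (itm M r).m (Bdd.pull (fun w => (Fin.cons a w : Fin (r + 1) → π)) f), by
      obtain ⟨C, hC⟩ := f.2
      exact ⟨C, fun a => (itm M r).le _ _ fun b => hC _⟩⟩
    have h1 : ((toMean0 M).fub (itm M r) (fun a v => (Fin.cons a v : Fin (r + 1) → π))).m f =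
        (toMean0 M).m g := Mean0.fub_apply _ _ _ _ _ fun a => rfl
    have h2 : ((toMean0 M).fub (itm M r) (fun a v => (Fin.cons a v : Fin (r + 1) → π))).m
        (Bdd.pull (fun u => v + u) f) = (toMean0 M).m (Bdd.pull (fun a => v 0 + a) g) := by
      apply Mean0.fub_apply
      intro a
      change _ = (itm M r).m (Bdd.pull (fun w => (Fin.cons (v 0 + a) w : Fin (r + 1) → π)) f)
      rw [← ih (Fin.tail v) (Bdd.pull (fun w => (Fin.cons (v 0 + a) w : Fin (r + 1) → π)) f)]
      congr 1
      apply Subtype.ext
      funext w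
      change f.1 (v + Fin.cons a w) = f.1 (Fin.cons (v 0 + a) (Fin.tail v + w))
      refine congrArg f.1 ?_
      funext j
      refine Fin.cases ?_ (fun j => ?_) j
      · rfl
      · rfl
    rw [h1, h2]
    exact M.inv (v 0) g

theorem itm_res (M : AddMean π) : ∀ (r r' : ℕ) (ι : Fin r' → Fin r), StrictMono ι →
    ∀ f : Bdd (Fin r' → π), (itm M r).m (Bdd.pull (fun u j => u (ι j)) f) = (itm M r').m f := by
  intro r
  induction r with
  | zero =>
    intro r' ι _ f
    cases r' with
    | zero =>
      have h : ∀ u : Fin 0 → π, (fun j => u (ι j)) = u := fun u => Subsingleton.elim _ _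
      rw [pull_congr f h]
      rfl
    | succ r' => exact (ι 0).elim0
  | succ r ih =>
    intro r' ι hι f
    by_cases h0 : ∃ j, ι j = 0
    · obtain ⟨j, hj⟩ := h0
      cases r' with
      | zero => exact j.elim0
      | succ r' =>
        have hj0 : ι 0 = 0 := by
          have := hι.monotone (Fin.zero_le j)
          rw [hj] at this
          exact Fin.le_zero_iff.mp this
        have hne : ∀ j : Fin r', ι j.succ ≠ 0 := fun j h => by
          have := hι (Fin.succ_pos j)
          rw [h] at this
          exact absurd this (Fin.not_lt_zero _)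
        let ι' : Fin r' → Fin r := fun j => (ι j.succ).pred (hne j)
        have hι' : StrictMono ι' := by
          intro a b hab
          exact Fin.pred_lt_pred_iff.mpr (hι (Fin.succ_lt_succ_iff.mpr hab))
        rw [itm_succ, itm_succ]
        apply Mean0.fub_congr
        intro a
        rw [← ih r' ι' hι']
        congr 1
        apply Subtype.ext
        funext w
        change f.1 (fun j => (Fin.cons a w : Fin (r + 1) → π) (ι j)) =
          f.1 (Fin.cons a (fun j => w (ι' j)))
        refine congrArg f.1 ?_
        funext j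
        refine Fin.cases ?_ (fun j => ?_) j
        · rw [hj0]
          rfl
        · have : ι j.succ = (ι' j).succ := (Fin.succ_pred _ (hne j)).symm
          rw [this]
          rfl
    · push Not at h0
      let ι' : Fin r' → Fin r := fun j => (ι j).pred (h0 j)
      have hι' : StrictMono ι' := by
        intro a b hab
        exact Fin.pred_lt_pred_iff.mpr (hι hab)
      rw [itm_succ]
      have h1 := Mean0.fub_apply (toMean0 M) (itm M r)
        (fun a v => (Fin.cons a v : Fin (r + 1) → π)) (Bdd.pull (fun u j => u (ι j)) f)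
        (Bdd.const ((itm M r').m f)) (by
          intro a
          change _ = (itm M r').m f
          rw [← ih r' ι' hι' f]
          congr 1
          apply Subtype.ext
          funext w
          change f.1 (fun j => (Fin.cons a w : Fin (r + 1) → π) (ι j)) =
            f.1 (fun j => w (ι' j))
          refine congrArg f.1 ?_
          funext j
          have : ι j = (ι' j).succ := (Fin.succ_pred _ (h0 j)).symm
          rw [this]
          rfl)
      rw [h1, Mean0.const]

/-- An order isomorphism of the increasing tuples, ordered lexicographically, with `Fin c`. -/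
theorem exists_lexEquiv (k n : ℕ) : ∃ (c : ℕ) (e : Inc k n ≃ Fin c),
    ∀ F G : Inc k n, (toLex (F : Fin k → Fin n) : Lex (Fin k → Fin n)) < toLex (G : Fin k → Fin n) →
      e F < e G := by
  classical
  let S : Finset (Lex (Fin k → Fin n)) :=
    Finset.univ.image (fun F : Inc k n => toLex (F : Fin k → Fin n))
  let o : Fin S.card ≃o S := S.orderIsoOfFin rfl
  have hinj : Function.Injective
      (fun F : Inc k n => (toLex (F : Fin k → Fin n) : Lex (Fin k → Fin n))) := by
    intro F G h
    exact DFunLike.coe_injective (toLex.injective h)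
  let e0 : Inc k n ≃ S := Equiv.ofBijective
    (fun F => ⟨toLex (F : Fin k → Fin n), Finset.mem_image_of_mem _ (Finset.mem_univ _)⟩) ⟨by
      intro F G h
      exact hinj (congrArg Subtype.val h), by
      rintro ⟨x, hx⟩
      obtain ⟨F, _, hF⟩ := Finset.mem_image.mp hx
      exact ⟨F, Subtype.ext hF⟩⟩
  refine ⟨S.card, e0.trans o.symm.toEquiv, fun F G h => ?_⟩
  change o.symm (e0 F) < o.symm (e0 G)
  rw [OrderIso.lt_iff_lt]
  exact h

theorem lex_trans {k n : ℕ} (F G : Inc k n) (δ : Fin n ↪o Fin (n + 1))
    (h : (toLex (F : Fin k → Fin n) : Lex (Fin k → Fin n)) < toLex (G : Fin k → Fin n)) :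
    (toLex (F.trans δ : Fin k → Fin (n + 1)) : Lex (Fin k → Fin (n + 1))) <
      toLex (G.trans δ : Fin k → Fin (n + 1)) := by
  obtain ⟨i, hi, hlt⟩ := h
  refine ⟨i, fun j hj => ?_, ?_⟩
  · exact congrArg δ (hi j hj)
  · exact δ.strictMono hlt

/-- [ITMEAN] -/
theorem itMean : ItMeanStatement := by
  intro π _ hM k
  obtain ⟨M⟩ := hM
  choose c e he using fun n => exists_lexEquiv k n
  refine ⟨fun n => (itm M (c n)).m ∘ₗ Bdd.pull (fun w F => w (e n F)), ?_, ?_, ?_, ?_⟩
  · intro n
    change (itm M (c n)).m (Bdd.const 1) = 1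
    exact (itm M (c n)).one
  · intro n f C h
    exact (itm M (c n)).le _ _ fun w => h _
  · intro n v f
    change (itm M (c n)).m (Bdd.pull (fun w F => w (e n F)) (Bdd.pull (fun u => v + u) f)) =
      (itm M (c n)).m (Bdd.pull (fun w F => w (e n F)) f)
    rw [← itm_add M (c n) (fun j => v ((e n).symm j)) (Bdd.pull (fun w F => w (e n F)) f)]
    congr 1
    apply Subtype.ext
    funext w
    change f.1 (v + fun F => w (e n F)) = f.1 (fun F => v ((e n).symm (e n F)) + w (e n F))
    refine congrArg f.1 ?_
    funext F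
    rw [Equiv.symm_apply_apply]
    rfl
  · intro n i f
    let δ := Fin.succAboveOrderEmb i
    let ι : Fin (c n) → Fin (c (n + 1)) := fun j => e (n + 1) (((e n).symm j).trans δ)
    have hι : StrictMono ι := by
      intro a b hab
      apply he
      apply lex_trans
      by_contra hcon
      have hcon' := (not_lt (α := Lex (Fin k → Fin n))).mp hcon
      rcases hcon'.lt_or_eq with h | h
      · have := he n _ _ h
        rw [Equiv.apply_symm_apply, Equiv.apply_symm_apply] at this
        exact absurd hab (not_lt.mpr this.le)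
      · have h1 : (e n).symm b = (e n).symm a := DFunLike.coe_injective (toLex.injective h)
        have h2 := (e n).symm.injective h1
        exact absurd h2 hab.ne'
    change (itm M (c (n + 1))).m (Bdd.pull (fun w F => w (e (n + 1) F))
      (Bdd.pull (fun u F => u (F.trans δ)) f)) =
      (itm M (c n)).m (Bdd.pull (fun w F => w (e n F)) f)
    rw [← itm_res M (c (n + 1)) (c n) ι hι]
    congr 1
    apply Subtype.ext
    funext w
    change f.1 (fun F => w (e (n + 1) (F.trans δ))) =
      f.1 (fun F => w (e (n + 1) (((e n).symm (e n F)).trans δ)))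
    refine congrArg f.1 ?_
    funext F
    rw [Equiv.symm_apply_apply]

end

end Pool.Agent.Lib.MP_72b724_gt.H53
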