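import Pool.Agent.Lib.MP_72b724_gt.H53.Exact
import Pool.Agent.Lib.MP_72b724_gt.H53.ItMean

/-!
# MP_72b724_gt, module AVG: the averaging operators
-/

open scoped BigOperators

namespace Pool.Agent.Lib.MP_72b724_gt.H53

noncomputable section

variable {π : Type} [AddCommGroup π]

theorem dI_add {k n : ℕ} (z w : Inc k n → π) : dI (z + w) = dI z + dI w := by
  funext F
  rw [Pi.add_apply]
  unfold dI
  rw [← Finset.sum_add_distrib]
  refine Finset.sum_congr rfl fun i _ => ?_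
  rw [Pi.add_apply, smul_add]

theorem dI_zero {k n : ℕ} : dI (0 : Inc k n → π) = 0 := by
  funext F
  unfold dI
  exact Finset.sum_eq_zero fun i _ => by rw [Pi.zero_apply, smul_zero]

theorem dI_neg {k n : ℕ} (z : Inc k n → π) : dI (-z) = -dI z := by
  have h := dI_add z (-z)
  rw [add_neg_cancel] at h
  rw [dI_zero] at h
  exact (neg_eq_of_add_eq_zero_right h.symm).symm

theorem dI_sub {k n : ℕ} (z w : Inc k n → π) : dI (z - w) = dI z - dI w := by
  rw [sub_eq_add_neg, dI_add, dI_neg, ← sub_eq_add_neg]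

/-- The restriction to a face. -/
def resI {k n : ℕ} (i : Fin (n + 1)) (z : Inc k (n + 1) → π) : Inc k n → π :=
  fun F => z (F.trans (Fin.succAboveOrderEmb i))

theorem dI_resI {k n : ℕ} (i : Fin (n + 1)) (z : Inc k (n + 1) → π) :
    dI (resI i z) = resI i (dI z) := rfl

/-- The cocycles. -/
def Zc (π : Type) [AddCommGroup π] (k n : ℕ) : Type := {z : Inc k n → π // dI z = 0}

def Zc.res {k n : ℕ} (i : Fin (n + 1)) (z : Zc π k (n + 1)) : Zc π k n :=
  ⟨resI i z.1, by rw [dI_resI, z.2]; rfl⟩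

def Zc.add {k n : ℕ} (z w : Zc π k n) : Zc π k n :=
  ⟨z.1 + w.1, by rw [dI_add, z.2, w.2, add_zero]⟩

/-- Means on cocycles. -/
theorem exists_cocMean (hE : ExactStatement) (hI : ItMeanStatement) (hM : Nonempty (AddMean π))
    (k : ℕ) : ∃ l : ∀ n : ℕ, Bdd (Zc π k (n + 1)) →ₗ[ℝ] ℝ,
      (∀ n, l n (Bdd.const 1) = 1) ∧ (∀ n f C, Bdd.Le f C → |l n f| ≤ C) ∧
      (∀ n (z : Zc π k (n + 1)) f, l n (Bdd.pull (fun w => z.add w) f) = l n f) ∧
      ∀ n (i : Fin (n + 2)) (f : Bdd (Zc π k (n + 1))),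
        l (n + 1) (Bdd.pull (fun z => z.res i) f) = l n f := by
  cases k with
  | zero =>
    have hz : ∀ n (z : Zc π 0 (n + 1)), z.1 = 0 := fun n z => (hE π n).1 z.1 z.2
    let z0 : ∀ n, Zc π 0 (n + 1) := fun n => ⟨0, dI_zero⟩
    refine ⟨fun n => (Mean0.pt (z0 n)).m, fun n => rfl, fun n f C h => h _, ?_, ?_⟩
    · intro n z f
      change f.1 (z.add (z0 n)) = f.1 (z0 n)
      refine congrArg f.1 (Subtype.ext ?_)
      rw [hz n, hz n]
    · intro n i f
      change f.1 ((z0 (n + 1)).res i) = f.1 (z0 n)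
      refine congrArg f.1 (Subtype.ext ?_)
      rw [hz n, hz n]
  | succ k =>
    obtain ⟨μ, h1, h2, h3, h4⟩ := hI π hM k
    let D : ∀ n, (Inc k n → π) → Zc π (k + 1) n := fun n u => ⟨dI u, dI_dI u⟩
    refine ⟨fun n => μ (n + 1) ∘ₗ Bdd.pull (D (n + 1)), ?_, ?_, ?_, ?_⟩
    · intro n
      exact h1 (n + 1)
    · intro n f C h
      exact h2 (n + 1) _ C fun u => h _
    · intro n z f
      obtain ⟨u, hu⟩ := (hE π n).2 k z.1 z.2
      change μ (n + 1) (Bdd.pull (D (n + 1)) (Bdd.pull (fun w => z.add w) f)) =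
        μ (n + 1) (Bdd.pull (D (n + 1)) f)
      rw [← h3 (n + 1) u (Bdd.pull (D (n + 1)) f)]
      congr 1
      apply Subtype.ext
      funext w
      change f.1 (z.add (D (n + 1) w)) = f.1 (D (n + 1) (u + w))
      refine congrArg f.1 (Subtype.ext ?_)
      change z.1 + dI w = dI (u + w)
      rw [dI_add, hu]
    · intro n i f
      change μ (n + 2) (Bdd.pull (D (n + 2)) (Bdd.pull (fun z => z.res i) f)) =
        μ (n + 1) (Bdd.pull (D (n + 1)) f)
      rw [← h4 (n + 1) i (Bdd.pull (D (n + 1)) f)]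
      rfl

section

variable {S : SimpSet} {P : S.Pt} {k : ℕ} (T : Stage S P k)

/-- The pull-back of `κ`. -/
def Kap {m : ℕ} (σ : (S.Eil P k).X m) (F : Inc (k + 1) (m + 1)) : T.π :=
  T.κ ⟨S.map F.toOrderHom σ.1, σ.2.map _⟩

theorem dI_Kap {m : ℕ} (σ : (S.Eil P k).X m) : dI (Kap T σ) = 0 := by
  funext F
  have h := T.coc ⟨S.map F.toOrderHom σ.1, σ.2.map _⟩
  rw [Pi.zero_apply, ← h]
  unfold dI
  refine Finset.sum_congr rfl fun i _ => ?_
  congr 1
  unfold Kap
  refine congrArg T.κ (Subtype.ext ?_)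
  change _ = S.map _ (S.map _ _)
  rw [S.map_comp]
  rfl

theorem exists_psi (hE : ExactStatement) {m : ℕ} (σ : (S.Eil P k).X m) :
    ∃ ψ : Inc k (m + 1) → T.π, dI ψ = Kap T σ :=
  (hE T.π m).2 k (Kap T σ) (dI_Kap T σ)

/-- A point of the fibre. -/
def mkE {m : ℕ} (σ : (S.Eil P k).X m) (ψ : Inc k (m + 1) → T.π) (h : dI ψ = Kap T σ) : T.E.X m :=
  ⟨(σ, ψ), fun F => congrFun h F⟩

theorem Kap_res {m : ℕ} (σ : (S.Eil P k).X (m + 1)) (i : Fin (m + 2)) :
    Kap T ((S.Eil P k).d i σ) = resI i (Kap T σ) := by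
  funext F
  unfold Kap resI
  refine congrArg T.κ (Subtype.ext ?_)
  change S.map _ (S.map _ _) = _
  rw [S.map_comp]
  rfl

/-- [AVG] -/
theorem hasAvg (hE : ExactStatement) (hI : ItMeanStatement) (hM : AbMeanStatement) : HasAvg T := by
  obtain ⟨l, h1, h2, h3, h4⟩ := exists_cocMean hE hI (hM T.π) k
  choose ψ hψ using fun m (σ : (S.Eil P k).X m) => exists_psi T hE σ
  have hadd : ∀ m (σ : (S.Eil P k).X m) (z : Zc T.π k (m + 1)), dI (ψ m σ + z.1) = Kap T σ := by
    intro m σ z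
    rw [dI_add, hψ, z.2, add_zero]
  let tr : ∀ m (σ : (S.Eil P k).X m), Zc T.π k (m + 1) → T.E.X m := fun m σ z =>
    mkE T σ (ψ m σ + z.1) (hadd m σ z)
  let Av : ∀ m, Bdd (T.E.X m) →ₗ[ℝ] Bdd ((S.Eil P k).X m) := fun m =>
    { toFun := fun f => ⟨fun σ => l m (Bdd.pull (tr m σ) f), by
        obtain ⟨C, hC⟩ := f.2
        exact ⟨C, fun σ => h2 m _ C fun z => hC _⟩⟩
      map_add' := fun f g => by
        apply Subtype.ext
        funext σ
        change l m (Bdd.pull (tr m σ) (f + g)) = l m (Bdd.pull (tr m σ) f) +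
          l m (Bdd.pull (tr m σ) g)
        rw [map_add, map_add]
      map_smul' := fun c f => by
        apply Subtype.ext
        funext σ
        change l m (Bdd.pull (tr m σ) (c • f)) = c • l m (Bdd.pull (tr m σ) f)
        rw [map_smul, map_smul] }
  have hAv : ∀ m f σ, (Av m f).1 σ = l m (Bdd.pull (tr m σ) f) := fun m f σ => rfl
  refine ⟨Av, ?_, ?_, ?_⟩
  · intro m f C h σ
    exact h2 m _ C fun z => h _
  · intro m f
    apply Subtype.ext
    funext σ
    rw [hAv]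
    have h : Bdd.pull (tr m σ) (Bdd.pull T.proj f) = f.1 σ • Bdd.const 1 := by
      apply Subtype.ext
      funext z
      change f.1 σ = f.1 σ * 1
      rw [mul_one]
    rw [h, map_smul, h1, smul_eq_mul, mul_one]
  · intro m i f
    apply Subtype.ext
    funext σ
    change l (m + 1) (Bdd.pull (tr (m + 1) σ) (Bdd.pull (T.E.d i) f)) =
      l m (Bdd.pull (tr m ((S.Eil P k).d i σ)) f)
    let w : Zc T.π k (m + 1) := ⟨resI i (ψ (m + 1) σ) - ψ m ((S.Eil P k).d i σ), by
      rw [dI_sub, dI_resI, hψ, hψ, Kap_res, sub_self]⟩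
    rw [← h3 m w, ← h4 m i]
    congr 1
    apply Subtype.ext
    funext z
    change f.1 (T.E.d i (tr (m + 1) σ z)) = f.1 (tr m ((S.Eil P k).d i σ) (w.add (z.res i)))
    refine congrArg f.1 (Subtype.ext (Prod.ext rfl ?_))
    change resI i (ψ (m + 1) σ + z.1) = ψ m ((S.Eil P k).d i σ) +
      ((resI i (ψ (m + 1) σ) - ψ m ((S.Eil P k).d i σ)) + resI i z.1)
    rw [← add_assoc, add_sub_cancel]
    rfl

end

/-- [AVG] -/
theorem avg (hE : ExactStatement) (hI : ItMeanStatement) (hM : AbMeanStatement) : AvgStatement :=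
  fun _ _ _ T => hasAvg T hE hI hM

end

end Pool.Agent.Lib.MP_72b724_gt.H53
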