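import Pool.Agent.Lib.MP_72b724_gt.Interfaces

/-!
# MP_72b724_gt, module EXACT: the augmented cochain complex of a simplex is exact
-/

open scoped BigOperators

namespace Pool.Agent.Lib.MP_72b724_gt.H53

/-- The cone of a strictly increasing tuple of nonzero elements. -/
def coneE {k n : ℕ} (G : Inc k (n + 1)) (h : ∀ i, G i ≠ 0) : Inc (k + 1) (n + 1) :=
  OrderEmbedding.ofStrictMono (Fin.cons (α := fun _ => Fin (n + 1)) 0 (fun i => G i)) (by
    intro a b hab
    refine Fin.cases ?_ (fun b hab => ?_) b hab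
    · intro hab
      exact absurd hab (Fin.not_lt_zero a)
    · refine Fin.cases ?_ (fun a hab => ?_) a hab
      · intro _
        simp only [Fin.cons_zero, Fin.cons_succ]
        exact Fin.pos_iff_ne_zero.mpr (h b)
      · simp only [Fin.cons_succ]
        exact G.strictMono (Fin.succ_lt_succ_iff.mp hab))

theorem coneE_zero {k n : ℕ} (G : Inc k (n + 1)) (h : ∀ i, G i ≠ 0) : coneE G h 0 = 0 := rfl

theorem coneE_succ {k n : ℕ} (G : Inc k (n + 1)) (h : ∀ i, G i ≠ 0) (i : Fin k) :
    coneE G h i.succ = G i := rfl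

theorem succAbove_trans_apply {k n : ℕ} (F : Inc (k + 1) n) (i : Fin (k + 1)) (a : Fin k) :
    ((Fin.succAboveOrderEmb i).trans F) a = F (i.succAbove a) := rfl

theorem zero_face_coneE {k n : ℕ} (G : Inc k (n + 1)) (h : ∀ i, G i ≠ 0) :
    (Fin.succAboveOrderEmb 0).trans (coneE G h) = G := by
  apply DFunLike.ext
  intro a
  rw [succAbove_trans_apply, Fin.succAbove_zero, coneE_succ]

theorem succ_face_coneE {k n : ℕ} (G : Inc (k + 1) (n + 1)) (h : ∀ i, G i ≠ 0)
    (i : Fin (k + 1)) (h' : ∀ a, ((Fin.succAboveOrderEmb i).trans G) a ≠ 0) :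
    (Fin.succAboveOrderEmb i.succ).trans (coneE G h) =
      coneE ((Fin.succAboveOrderEmb i).trans G) h' := by
  apply DFunLike.ext
  intro a
  rw [succAbove_trans_apply]
  refine Fin.cases ?_ (fun a => ?_) a
  · rw [Fin.succ_succAbove_zero, coneE_zero, coneE_zero]
  · rw [Fin.succ_succAbove_succ, coneE_succ, coneE_succ, succAbove_trans_apply]

theorem coneE_tail {k n : ℕ} (F : Inc (k + 1) (n + 1)) (h0 : F 0 = 0)
    (h' : ∀ a, ((Fin.succAboveOrderEmb 0).trans F) a ≠ 0) :
    coneE ((Fin.succAboveOrderEmb 0).trans F) h' = F := by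
  apply DFunLike.ext
  intro a
  refine Fin.cases ?_ (fun a => ?_) a
  · rw [coneE_zero, h0]
  · rw [coneE_succ, succAbove_trans_apply, Fin.succAbove_zero]

theorem pos_of_lt {k n : ℕ} (F : Inc k (n + 1)) {a b : Fin k} (h : a < b) : F b ≠ 0 := by
  have := F.strictMono h
  exact Fin.pos_iff_ne_zero.mp (lt_of_le_of_lt (Fin.zero_le _) this)

open Classical in
/-- The cone operator on cochains. -/
noncomputable def coneU {π : Type} [AddCommGroup π] {k n : ℕ} (z : Inc (k + 1) (n + 1) → π)
    (G : Inc k (n + 1)) : π :=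
  if h : ∀ i, G i ≠ 0 then z (coneE G h) else 0

theorem dI_coneU {π : Type} [AddCommGroup π] {k n : ℕ} (z : Inc (k + 1) (n + 1) → π)
    (hz : dI z = 0) : dI (coneU z) = z := by
  funext F
  by_cases h0 : F 0 = 0
  · unfold dI
    rw [Fin.sum_univ_succ]
    have h1 : ∀ a, ((Fin.succAboveOrderEmb 0).trans F) a ≠ 0 := by
      intro a
      rw [succAbove_trans_apply, Fin.succAbove_zero]
      exact pos_of_lt F (Fin.succ_pos a)
    have h2 : coneU z ((Fin.succAboveOrderEmb 0).trans F) = z F := by
      rw [coneU, dif_pos h1, coneE_tail F h0]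
    rw [h2]
    simp only [Fin.val_zero, pow_zero, one_smul]
    rw [Finset.sum_eq_zero, add_zero]
    intro i _
    have h3 : ¬ ∀ a, ((Fin.succAboveOrderEmb i.succ).trans F) a ≠ 0 := by
      intro h
      cases k with
      | zero => exact i.elim0
      | succ k =>
        apply h 0
        rw [succAbove_trans_apply, Fin.succ_succAbove_zero, h0]
    rw [coneU, dif_neg h3, smul_zero]
  · have h1 : ∀ a, F a ≠ 0 := by
      intro a
      refine Fin.cases h0 (fun a => ?_) a
      exact pos_of_lt F (Fin.succ_pos a)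
    have h2 := congrFun hz (coneE F h1)
    unfold dI at h2
    rw [Fin.sum_univ_succ, zero_face_coneE] at h2
    simp only [Fin.val_zero, pow_zero, one_smul, Pi.zero_apply] at h2
    have h3 : ∑ i : Fin (k + 1), ((-1 : ℤ) ^ ((i.succ : Fin (k + 2)) : ℕ)) •
        z ((Fin.succAboveOrderEmb i.succ).trans (coneE F h1)) = - dI (coneU z) F := by
      unfold dI
      rw [← Finset.sum_neg_distrib]
      refine Finset.sum_congr rfl fun i _ => ?_
      have h4 : ∀ a, ((Fin.succAboveOrderEmb i).trans F) a ≠ 0 := fun a => h1 _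
      rw [succ_face_coneE F h1 i h4, coneU, dif_pos h4, Fin.val_succ, pow_succ, mul_neg, mul_one,
        neg_smul]
    rw [h3] at h2
    rw [← sub_eq_add_neg, sub_eq_zero] at h2
    exact h2.symm

/-- [EXACT] -/
theorem exact : ExactStatement := by
  intro π _ n
  refine ⟨fun z hz => ?_, fun k z hz => ⟨coneU z, dI_coneU z hz⟩⟩
  funext F
  have h1 := congrFun hz (coneE F (fun i => i.elim0))
  unfold dI at h1
  rw [Fin.sum_univ_succ, zero_face_coneE] at h1
  simpa using h1

theorem succAbove_succAbove_swap {k : ℕ} (i : Fin (k + 2)) (j : Fin (k + 1)) (h : (i : ℕ) ≤ j)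
    (a : Fin k) :
    i.succAbove (j.succAbove a) =
      (j.succ).succAbove ((i.castLT (lt_of_le_of_lt h j.2)).succAbove a) := by
  apply Fin.ext
  simp only [Fin.succAbove, Fin.lt_def, Fin.val_castSucc, Fin.val_succ,
    Fin.val_castLT] at *
  split_ifs <;> simp at * <;> omega

/-- The square of the coboundary is zero. -/
theorem dI_dI {π : Type} [AddCommGroup π] {k n : ℕ} (z : Inc k n → π) : dI (dI z) = 0 := by
  funext F
  unfold dI
  simp only [Finset.smul_sum, smul_smul, ← pow_add]
  rw [← Finset.sum_product', Finset.univ_product_univ, Pi.zero_apply]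
  let P := Fin (k + 2) × Fin (k + 1)
  let S : Finset P := Finset.univ.filter fun ij : P => (ij.1 : ℕ) ≤ (ij.2 : ℕ)
  rw [← Finset.sum_add_sum_compl S, ← eq_neg_iff_add_eq_zero, ← Finset.sum_neg_distrib]
  let φ : ∀ ij : P, ij ∈ S → P := fun ij hij =>
    (ij.2.succ, Fin.castLT ij.1 (lt_of_le_of_lt (Finset.mem_filter.mp hij).right (Fin.is_lt ij.2)))
  apply Finset.sum_bij φ
  · rintro ⟨i, j⟩ hij
    simp only [S, φ, Finset.mem_compl, Finset.mem_filter, Finset.mem_univ, true_and, Fin.val_succ,
      Fin.val_castLT, not_le] at hij ⊢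
    omega
  · rintro ⟨i, j⟩ hij ⟨i', j'⟩ hij' h
    have h1 : j = j' := Fin.succ_injective _ (congrArg Prod.fst h)
    have h2 := congrArg (fun x => ((Prod.snd x : Fin (k + 1)) : ℕ)) h
    exact Prod.ext (Fin.ext h2) h1
  · rintro ⟨i', j'⟩ hij'
    simp only [S, Finset.mem_compl, Finset.mem_filter, Finset.mem_univ, true_and, not_le] at hij'
    have hne : i' ≠ 0 := by
      rintro rfl
      simp at hij'
    refine ⟨(j'.castSucc, i'.pred hne), ?_, ?_⟩
    · simp only [S, Finset.mem_filter, Finset.mem_univ, true_and, Fin.val_castSucc, Fin.val_pred]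
      omega
    · simp only [φ, Fin.succ_pred]
      rfl
  · rintro ⟨i, j⟩ hij
    simp only [S, Finset.mem_filter, Finset.mem_univ, true_and] at hij
    have h1 : (Fin.succAboveOrderEmb j).trans ((Fin.succAboveOrderEmb i).trans F) =
        (Fin.succAboveOrderEmb (Fin.castLT i (lt_of_le_of_lt hij (Fin.is_lt j)))).trans
          ((Fin.succAboveOrderEmb j.succ).trans F) := by
      apply DFunLike.ext
      intro a
      simp only [succAbove_trans_apply]
      rw [succAbove_succAbove_swap i j hij a]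
    rw [h1]
    simp only [φ, Fin.val_succ, Fin.val_castLT]
    rw [← neg_smul]
    congr 1
    ring

end Pool.Agent.Lib.MP_72b724_gt.H53
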